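import Pool.Agent.helper1.FI.SpecQ2

set_option autoImplicit false

namespace Pool.Agent.FI

open Pool.Agent.helper58.DC Pool.Agent.DI Pool.Agent.GR Pool.Agent.OB

theorem QEB_apply {G : Type} [Group G] (t : G) (ψ : G → ℂ) (x : G) : cjF t ψ x = ψ (t⁻¹ * x * t) := by
  unfold cjF funMap
  rw [MulAut.conj_inv_apply]

theorem QEB (hCJG : CJG_stmt) : QEB_stmt := by
  intro G _ _ M D θ hθ t
  constructor
  · intro ht H hH y
    obtain ⟨htn, htS⟩ := ht
    have hcz : ∀ x ∈ cz D, t⁻¹ * x * t ∈ cz D := by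
      intro x hx
      have h1 := cz_conj ((nz D).inv_mem htn) hx
      rwa [inv_inv] at h1
    have hcz2 : ∀ x, x ∉ cz D → t⁻¹ * x * t ∉ cz D := by
      intro x hx h
      apply hx
      have h1 := cz_conj htn h
      have h2 : t * (t⁻¹ * x * t) * t⁻¹ = x := by group
      rwa [h2] at h1
    have hle : cz D ≤ cjS t H := by
      intro x hx
      refine Subgroup.mem_map.2 ⟨t⁻¹ * x * t, hH (hcz x hx), ?_⟩
      show t * (t⁻¹ * x * t) * t⁻¹ = x
      group
    have hSB : SB M (cjS t H) (cjF t θ) θ := by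
      refine TRNb hle ?_ hθ htS
      intro x hx
      rw [QEB_apply]
      exact hθ _ (hcz2 x hx)
    have hBl : Bl M (cjS t H) θ = cjF t '' Bl M H θ := by
      have h1 : Bl M (cjS t H) (cjF t θ) = cjF t '' Bl M H θ := by
        obtain ⟨-, -, -, -, -, -, h, -⟩ := hCJG G M 2 t H
        exact h θ
      rw [← h1]
      ext ψ
      constructor
      · rintro ⟨h2, h3⟩
        exact ⟨h2, h3.trans hSB.symm⟩
      · rintro ⟨h2, h3⟩
        exact ⟨h2, h3.trans hSB⟩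
    have hinj : Function.Injective (cjF t : (G → ℂ) → (G → ℂ)) := by
      intro ψ φ h
      funext x
      have h1 := congrFun h (t * x * t⁻¹)
      rw [QEB_apply, QEB_apply] at h1
      have h2 : t⁻¹ * (t * x * t⁻¹) * t = x := by group
      rwa [h2] at h1
    have hcard : Nat.card (cjS t H) = Nat.card H :=
      Subgroup.card_map_of_injective (MulAut.conj t).injective
    show (∑ᶠ ψ ∈ Bl M (cjS t H) θ, ψ 1 * ψ (t * y * t⁻¹)⁻¹) / (Nat.card (cjS t H) : ℂ) =
      (∑ᶠ ψ ∈ Bl M H θ, ψ 1 * ψ y⁻¹) / (Nat.card H : ℂ)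
    rw [hcard, hBl, finsum_mem_image hinj.injOn]
    congr 1
    refine finsum_mem_congr rfl fun ψ _ => ?_
    rw [QEB_apply, QEB_apply]
    have h1 : t⁻¹ * 1 * t = 1 := by group
    have h2 : t⁻¹ * (t * y * t⁻¹)⁻¹ * t = y⁻¹ := by group
    rw [h1, h2]
  · intro z w
    funext g
    show ∑ᶠ x, z (t⁻¹ * x * t) * w (t⁻¹ * (x⁻¹ * g) * t) = ∑ᶠ x, z x * w (x⁻¹ * (t⁻¹ * g * t))
    rw [← finsum_comp_equiv (MulAut.conj t).toEquiv (f := fun x => z (t⁻¹ * x * t) * w (t⁻¹ * (x⁻¹ * g) * t))]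
    refine finsum_congr fun x => ?_
    have h2 : (MulAut.conj t).toEquiv x = t * x * t⁻¹ := rfl
    rw [h2]
    have h3 : t⁻¹ * (t * x * t⁻¹) * t = x := by group
    have h4 : t⁻¹ * ((t * x * t⁻¹)⁻¹ * g) * t = x⁻¹ * (t⁻¹ * g * t) := by group
    rw [h3, h4]

end Pool.Agent.FI
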